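import Pool.Agent.Helper45.HS.GoalsC
import Pool.Agent.Helper19.HS.MAXF
import Pool.Agent.Helper89.Lin.Phell

/-! # HS-Y, packet TRMX: the trace of the Laplacian at a maximum -/

open Complex Metric Set Filter Topology MeasureTheory
open scoped ContDiff ComplexConjugate ComplexOrder Manifold Matrix

namespace Pool.Agent.Helper91.HS

open Pool.Agent.Helper95.Lin Pool.Agent.Helper16.Abund Pool.Agent.Helper92.Orb
  Pool.Agent.Helper10.SP Pool.Agent.Helper95.RK Pool.Agent.Helper57.HS Pool.Agent.Helper15.HS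
  Pool.Agent.Helper45.HS Pool.Agent.Helper89.Lin

universe u

theorem trmx (h1 : S_LMF) : S_TRMX.{u} := by
  intro n T G _ R Q hQ C hC f hf
  have hE := hQ.et
  obtain ⟨hCT, hCc, hCf⟩ := hC
  obtain ⟨y₀, hy₀⟩ := hE.nonempty
  obtain ⟨-, z₀, hz₀, -⟩ := hCf y₀ hy₀
  obtain ⟨x, hxC, hmax⟩ := hCc.exists_isMaxOn ⟨z₀, hz₀⟩ (hf.1.continuousOn.mono hCT)
  have hxT := hCT hxC
  have hM : ∀ y ∈ T, f y ≤ f x := by
    intro y hy
    obtain ⟨γ, z, hz, hR⟩ := hCf y hy
    rw [← hf.2 γ y z hR]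
    exact hmax hz
  have hloc : IsLocalMax f x := by
    filter_upwards [hE.isOpen.mem_nhds hxT] with y hy using hM y hy
  have hcd : ContDiffAt ℝ 2 f x :=
    ((hf.1 x hxT).contDiffAt (hE.isOpen.mem_nhds hxT)).of_le (WithTop.coe_le_coe.2 le_top)
  obtain ⟨-, hherm, hlev, -⟩ := h1 T hE.isOpen f hf.1
  have hneg : (- LM f x).PosSemidef := by
    refine Matrix.PosSemidef.of_dotProduct_mulVec_nonneg (hherm x hxT).neg ?_
    intro y
    rw [Matrix.neg_mulVec, dotProduct_neg, Pool.Agent.Helper19.HS.star_dot_eq, ← hlev x hxT]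
    have := Pool.Agent.Helper8.SP.lev_nonpos hcd hloc (fun i => conj (y i))
    rw [← Complex.ofReal_neg, Complex.zero_le_real]
    linarith
  refine ⟨x, hxC, hM, hneg, ?_⟩
  have := re_trace_mul_nonneg (hQ.posDef x hxT).inv.posSemidef hneg
  rw [Matrix.mul_neg, Matrix.trace_neg, Complex.neg_re] at this
  unfold trL
  linarith

end Pool.Agent.Helper91.HS
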