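import Pool.Agent.Helper91.HS.TRLA
import Pool.Agent.Helper91.HS.TRMX

/-! # HS-Y, packets C0E and RHOE -/

open Complex Metric Set Filter Topology MeasureTheory
open scoped ContDiff ComplexConjugate ComplexOrder Manifold Matrix

namespace Pool.Agent.Helper91.HS

open Pool.Agent.Helper95.Lin Pool.Agent.Helper16.Abund Pool.Agent.Helper92.Orb
  Pool.Agent.Helper10.SP Pool.Agent.Helper95.RK Pool.Agent.Helper57.HS Pool.Agent.Helper15.HS
  Pool.Agent.Helper45.HS

universe u

theorem LM_congr {n : ℕ} {W : Set (Cn n)} (hW : IsOpen W) {x : Cn n} (hx : x ∈ W)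
    {f g : Cn n → ℝ} (h : ∀ y ∈ W, f y = g y) : LM f x = LM g x := by
  ext j k
  have h1 : ∀ y ∈ W, cdb k (fun y => ((f y : ℝ) : ℂ)) y = cdb k (fun y => ((g y : ℝ) : ℂ)) y :=
    fun y hy => (cd_congr' hW hy (fun z hz => by rw [h z hz]) k).2
  exact (cd_congr' hW hx h1 j).1

theorem det_re_pos {n : ℕ} {A : Matrix (Fin n) (Fin n) ℂ} (h : A.PosDef) : 0 < A.det.re :=
  (Complex.pos_iff.1 h.det_pos).1

theorem det_re_smooth {n : ℕ} {W : Set (Cn n)} {X : Cn n → Matrix (Fin n) (Fin n) ℂ}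
    (hX : SmM X W) : ContDiffOn ℝ ∞ (fun x => (X x).det.re) W :=
  Complex.reCLM.contDiff.comp_contDiffOn hX.det

theorem ld_smooth {n : ℕ} {W : Set (Cn n)} {X : Cn n → Matrix (Fin n) (Fin n) ℂ}
    (hX : SmM X W) (hp : ∀ x ∈ W, (X x).PosDef) : ContDiffOn ℝ ∞ (ld X) W :=
  (det_re_smooth hX).log fun x hx => (det_re_pos (hp x hx)).ne'

theorem c0e (h1 : S_LMF) (h2 : Pool.Agent.Helper95.HS.S_TRC) : S_C0E.{u} := by
  intro n T G _ R H X hH hX C hC b
  have hT := hH.et.isOpen
  have hL : ContinuousOn (fun x => ld X x - ld H x) C :=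
    ((ld_smooth hX.smooth hX.posDef).continuousOn.mono hC.1).sub
      ((ld_smooth hH.smooth hH.posDef).continuousOn.mono hC.1)
  obtain ⟨κ, hκ⟩ := hC.2.1.exists_bound_of_continuousOn hL
  refine ⟨max 1 (κ + b), le_max_left _ _, ?_⟩
  intro f u hf hfb hu
  obtain ⟨hu1, hu2, hu3⟩ := hu
  have hfT : ∀ x ∈ T, |f x| ≤ b := by
    intro x hx
    obtain ⟨γ, y, hy, hR⟩ := hC.2.2 x hx
    rw [← hf.2 γ x y hR]
    exact hfb y hy
  have hlog : ∀ x ∈ T, Real.log (X x + LM u x).det.re = u x + f x + ld H x := by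
    intro x hx
    rw [hu3 x hx, Real.log_mul (Real.exp_pos _).ne' (det_re_pos (hH.posDef x hx)).ne',
      Real.log_exp]
    rfl
  -- upper bound
  have hup : ∀ y ∈ T, u y ≤ κ + b := by
    obtain ⟨x, hxC, hM, hneg, -⟩ := trmx h1 T R X hX C hC u hu1
    have hxT := hC.1 hxC
    have h3 := (h2 (X x + LM u x) (X x) (hu2.posDef x hxT)).2.2.2.1 (by
      have : X x - (X x + LM u x) = - LM u x := by abel
      rw [this]; exact hneg)
    have h4 := Real.log_le_log (det_re_pos (hu2.posDef x hxT)) h3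
    rw [hlog x hxT] at h4
    have h5 := hκ x hxC
    rw [Real.norm_eq_abs] at h5
    have h6 := (abs_le.1 h5).2
    have h7 := (abs_le.1 (hfT x hxT)).1
    have h8 : u x + f x + ld H x ≤ ld X x := h4
    intro y hy
    have := hM y hy
    linarith
  -- lower bound
  have hlow : ∀ y ∈ T, - u y ≤ κ + b := by
    have hinv : InvF T R fun y => - u y := ⟨hu1.1.neg, fun γ x y h => by
      simp only [hu1.2 γ x y h]⟩
    obtain ⟨x, hxC, hM, hneg, -⟩ := trmx h1 T R X hX C hC _ hinv
    have hxT := hC.1 hxC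
    have hLM : LM (fun y => - u y) x = - LM u x := by
      have h := LM_lin hT hxT hu1.1 hu1.1 (-1) 0
      have e : (fun y => (-1 : ℝ) * u y + 0 * u y) = fun y => - u y := by
        funext y; ring
      rw [e] at h
      rw [h]
      simp
    rw [hLM, neg_neg] at hneg
    have h3 := (h2 (X x) (X x + LM u x) (hX.posDef x hxT)).2.2.2.1 (by
      have : X x + LM u x - X x = LM u x := by abel
      rw [this]; exact hneg)
    have h4 := Real.log_le_log (det_re_pos (hX.posDef x hxT)) h3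
    rw [hlog x hxT] at h4
    have h5 := hκ x hxC
    rw [Real.norm_eq_abs] at h5
    have h6 := (abs_le.1 h5).1
    have h7 := (abs_le.1 (hfT x hxT)).2
    have h8 : ld X x ≤ u x + f x + ld H x := h4
    intro y hy
    have := hM y hy
    linarith
  intro x hx
  refine ⟨hfT x hx, abs_le.2 ⟨?_, ?_⟩⟩
  · have h3 := hlow x hx
    have h4 := le_max_right 1 (κ + b)
    linarith
  · exact (hup x hx).trans (le_max_right 1 (κ + b))

theorem rhoe (h1 : S_LMF) : S_RHOE.{u} := by
  intro n T G _ R H X hH hX f u hf hu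
  obtain ⟨hu1, hu2, hu3⟩ := hu
  have hT := hH.et.isOpen
  have hl := ld_smooth hH.smooth hH.posDef
  have sX : SmM X T := hX.smooth
  have sf : SmM (fun x => LM f x) T := (h1 T hT f hf.1).1
  have sr : SmM (fun x => rho H x) T := (h1 T hT (ld H) hl).1
  refine ⟨(sX.sub sf).sub sr, ?_⟩
  intro x hx
  have hlog : ∀ y ∈ T, ld (fun y => X y + LM u y) y =
      1 * (1 * u y + 1 * f y) + 1 * ld H y := by
    intro y hy
    change Real.log (X y + LM u y).det.re = _
    rw [hu3 y hy, Real.log_mul (Real.exp_pos _).ne' (det_re_pos (hH.posDef y hy)).ne',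
      Real.log_exp]
    unfold ld
    ring
  have huf : ContDiffOn ℝ ∞ (fun y => 1 * u y + 1 * f y) T :=
    (contDiffOn_const.mul hu1.1).add (contDiffOn_const.mul hf.1)
  change LM (ld fun y => X y + LM u y) x = _
  rw [LM_congr hT hx hlog, LM_lin hT hx huf hl, LM_lin hT hx hu1.1 hf.1]
  simp only [Complex.ofReal_one, one_smul]
  change LM u x + LM f x + rho H x = _
  abel

end Pool.Agent.Helper91.HS
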