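import Pool.Agent.Helper45.HS.GoalsC

/-! # HS-Y, packet LOGT: the Laplacian of the logarithm of the trace -/

open Complex Metric Set Filter Topology MeasureTheory
open scoped ContDiff ComplexConjugate ComplexOrder Manifold Matrix

namespace Pool.Agent.Helper91.HS

open Pool.Agent.Helper95.Lin Pool.Agent.Helper16.Abund Pool.Agent.Helper92.Orb
  Pool.Agent.Helper10.SP Pool.Agent.Helper95.RK Pool.Agent.Helper57.HS Pool.Agent.Helper15.HS
  Pool.Agent.Helper45.HS

theorem parE_one {n : ℕ} (W : Set (Cn n)) (H : Cn n → Matrix (Fin n) (Fin n) ℂ) :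
    Pool.Agent.Helper95.HS.ParE W H (fun _ => 1) where
  holo := fun i j => differentiableOn_const _
  herm := fun x _ => by simp
  par := fun x _ l => by
    rw [cdM_const]
    simp

theorem logt (hTRC : Pool.Agent.Helper95.HS.S_TRC) (hCHN : Pool.Agent.Helper95.HS.S_CHN)
    (hAAPS : Pool.Agent.Helper95.HS.S_AAPS) (hCLP : Pool.Agent.Helper95.HS.S_CLP) : S_LOGT := by
  intro n hn W hW H Q η hH hHp hQ hQp hη hrho
  set t : Cn n → ℝ := fun y => (Matrix.trace (H y * (Q y)⁻¹)).re with ht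
  have htP : Pool.Agent.Helper95.HS.trP (fun _ => 1) H Q = t := by
    funext y
    unfold Pool.Agent.Helper95.HS.trP
    rw [ht, Matrix.one_mul]
  obtain ⟨hsm, hcl⟩ := hCLP W hW H Q (fun _ => 1) hH hHp hQ hQp (parE_one W H)
  rw [htP] at hsm hcl
  have hpos : ∀ x ∈ W, 0 < t x := by
    intro x hx
    have h1 := (hTRC (Q x) (H x) (hQp x hx)).2.2.1 (hHp x hx)
    have h2 : 0 < (H x).det.re / (Q x).det.re :=
      div_pos (Complex.pos_iff.1 (hHp x hx).det_pos).1 (Complex.pos_iff.1 (hQp x hx).det_pos).1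
    have h3 : (0 : ℝ) < (n : ℝ) * ((H x).det.re / (Q x).det.re) ^ ((1 : ℝ) / n) :=
      mul_pos (by exact_mod_cast hn) (Real.rpow_pos_of_pos h2 _)
    have h4 : t x = (Matrix.trace ((Q x)⁻¹ * H x)).re := by
      rw [ht, Matrix.trace_mul_comm]
    rw [h4]
    linarith
  have hlogs : ContDiffOn ℝ ∞ Real.log (Ioi 0) :=
    fun x hx => (Real.contDiffAt_log.2 (ne_of_gt hx)).contDiffWithinAt
  obtain ⟨hs, hchn⟩ := hCHN W hW t Real.log (Ioi 0) hsm isOpen_Ioi hlogs (fun x hx => hpos x hx)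
  refine ⟨hs, ?_⟩
  intro x hx
  obtain ⟨-, hLM⟩ := hchn x hx
  obtain ⟨-, hcd, htr⟩ := hcl x hx
  have hd1 : deriv Real.log (t x) = (t x)⁻¹ := Real.deriv_log _
  have hd2 : deriv (deriv Real.log) (t x) = -((t x) ^ 2)⁻¹ := by
    rw [Real.deriv_log', deriv_inv]
  have htx := hpos x hx
  -- the gradient term
  set A : Fin n → Matrix (Fin n) (Fin n) ℂ := fun k => Adf H Q k x with hA
  set S : ℂ := ∑ k, ∑ l, (Q x)⁻¹ l k * (Matrix.trace (A k * H x * (Q x)⁻¹) *
    conj (Matrix.trace (A l * H x * (Q x)⁻¹))) with hS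
  have hAA := (hAAPS (Q x) (H x) A (hQp x hx) (hHp x hx).posSemidef).2.2
  rw [← hS] at hAA
  have e1 : trL Q (fun y => Real.log (t y)) x =
      (((t x)⁻¹ : ℝ) : ℂ) * trL Q t x - ((((t x) ^ 2)⁻¹ : ℝ) : ℂ) * S := by
    have h1 : LM (fun y => Real.log (t y)) x = (((t x)⁻¹ : ℝ) : ℂ) • LM t x +
        ((-((t x) ^ 2)⁻¹ : ℝ) : ℂ) • (Matrix.of fun j k =>
          Matrix.trace (A j * H x * (Q x)⁻¹) * conj (Matrix.trace (A k * H x * (Q x)⁻¹))) := by
      ext j k
      rw [hLM j k, hd1, hd2, hcd, hcd]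
      simp only [Matrix.add_apply, Matrix.smul_apply, Matrix.of_apply, smul_eq_mul, Matrix.one_mul,
        map_neg, hA]
      ring
    unfold trL
    rw [h1, Matrix.mul_add, Matrix.mul_smul, Matrix.mul_smul, Matrix.trace_add,
      Matrix.trace_smul, Matrix.trace_smul, smul_eq_mul, smul_eq_mul]
    have h2 : Matrix.trace ((Q x)⁻¹ * (Matrix.of fun j k =>
          Matrix.trace (A j * H x * (Q x)⁻¹) * conj (Matrix.trace (A k * H x * (Q x)⁻¹)))) =
        S := by
      rw [hS]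
      simp only [Matrix.trace, Matrix.diag_apply, Matrix.mul_apply (M := (Q x)⁻¹),
        Matrix.of_apply]
      rw [Finset.sum_comm]
    rw [h2]
    push_cast
    ring
  have e2 : (trL Q t x).re = - t x + (Matrix.trace (η x * (Q x)⁻¹ * H x * (Q x)⁻¹)).re -
      KKt H Q x + (∑ k, ∑ l, (Q x)⁻¹ l k *
        Matrix.trace (A k * H x * (A l)ᴴ * (Q x)⁻¹)).re := by
    rw [htr]
    unfold Pool.Agent.Helper95.HS.AAP KKt
    simp only [Matrix.one_mul, Matrix.mul_one]
    have hu : IsUnit (Q x).det := isUnit_iff_ne_zero.2 (posDef_det (hQp x hx))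
    rw [hrho x hx, Matrix.sub_mul, Matrix.mul_nonsing_inv _ hu, Matrix.sub_mul, Matrix.one_mul,
      Matrix.sub_mul, Matrix.trace_sub]
    simp only [Complex.add_re, Complex.sub_re, Complex.neg_re]
    rw [ht]
    ring
  have e3 : (trL Q (fun y => Real.log (t y)) x).re =
      (t x)⁻¹ * (trL Q t x).re - ((t x) ^ 2)⁻¹ * S.re := by
    rw [e1, Complex.sub_re, Complex.re_ofReal_mul, Complex.re_ofReal_mul]
  have hAA' : S.re ≤ t x * (∑ k, ∑ l, (Q x)⁻¹ l k *
        Matrix.trace (A k * H x * (A l)ᴴ * (Q x)⁻¹)).re := hAA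
  have e4 : t x * (trL Q (fun y => Real.log (t y)) x).re =
      (trL Q t x).re - (t x)⁻¹ * S.re := by
    rw [e3]
    field_simp
  change t x * (trL Q (fun y => Real.log (t y)) x).re ≥ - t x + _ - _
  rw [e4, e2]
  have h5 : (t x)⁻¹ * S.re ≤ (∑ k, ∑ l, (Q x)⁻¹ l k *
        Matrix.trace (A k * H x * (A l)ᴴ * (Q x)⁻¹)).re := by
    rw [inv_mul_le_iff₀ htx]
    exact hAA'
  linarith

end Pool.Agent.Helper91.HS
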