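import Pool.Agent.Helper45.HS.GoalsC

/-! # HS-Y, packet TRLA: additivity of the Laplacian -/

open Complex Metric Set Filter Topology MeasureTheory
open scoped ContDiff ComplexConjugate ComplexOrder Manifold Matrix

namespace Pool.Agent.Helper91.HS

open Pool.Agent.Helper95.Lin Pool.Agent.Helper16.Abund Pool.Agent.Helper92.Orb
  Pool.Agent.Helper10.SP Pool.Agent.Helper95.RK Pool.Agent.Helper57.HS Pool.Agent.Helper15.HS
  Pool.Agent.Helper45.HS

theorem cd_lin {n : ℕ} {W : Set (Cn n)} (hW : IsOpen W) {x : Cn n} (hx : x ∈ W)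
    {f g : Cn n → ℂ} (hf : ContDiffOn ℝ ∞ f W) (hg : ContDiffOn ℝ ∞ g W) (a b : ℂ) (k : Fin n) :
    cd k (fun y => a * f y + b * g y) x = a * cd k f x + b * cd k g x ∧
    cdb k (fun y => a * f y + b * g y) x = a * cdb k f x + b * cdb k g x := by
  have h1 := (Wirt.wirt W hW (fun y => a * f y) (fun y => b * g y) (contDiffOn_const.mul hf)
    (contDiffOn_const.mul hg)).2.1 k x hx
  have h2 := cd_mul'' hW hx (f := fun _ => a) contDiffOn_const hf k
  have h3 := cd_mul'' hW hx (f := fun _ => b) contDiffOn_const hg k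
  have h4 := cd_const'' (x := x) a k
  have h5 := cd_const'' (x := x) b k
  constructor
  · rw [h1.1, h2.1, h3.1, h4.1, h5.1]
    ring
  · rw [h1.2, h2.2, h3.2, h4.2, h5.2]
    ring

theorem LM_lin {n : ℕ} {W : Set (Cn n)} (hW : IsOpen W) {x : Cn n} (hx : x ∈ W)
    {f g : Cn n → ℝ} (hf : ContDiffOn ℝ ∞ f W) (hg : ContDiffOn ℝ ∞ g W) (a b : ℝ) :
    LM (fun y => a * f y + b * g y) x = (a : ℂ) • LM f x + (b : ℂ) • LM g x := by
  have hF : ContDiffOn ℝ ∞ (fun y => ((f y : ℝ) : ℂ)) W :=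
    Complex.ofRealCLM.contDiff.comp_contDiffOn hf
  have hG : ContDiffOn ℝ ∞ (fun y => ((g y : ℝ) : ℂ)) W :=
    Complex.ofRealCLM.contDiff.comp_contDiffOn hg
  ext j k
  have e : (fun y => ((a * f y + b * g y : ℝ) : ℂ)) =
      fun y => (a : ℂ) * ((f y : ℝ) : ℂ) + (b : ℂ) * ((g y : ℝ) : ℂ) := by
    funext y
    push_cast
    rfl
  have h1 : ∀ y ∈ W, cdb k (fun y => ((a * f y + b * g y : ℝ) : ℂ)) y =
      (a : ℂ) * cdb k (fun y => ((f y : ℝ) : ℂ)) y +
        (b : ℂ) * cdb k (fun y => ((g y : ℝ) : ℂ)) y := by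
    intro y hy
    rw [e]
    exact (cd_lin hW hy hF hG a b k).2
  have h2 := (cd_congr' hW hx h1 j).1
  have h3 := (cd_lin hW hx (Wirt.cdb_smooth hW hF k) (Wirt.cdb_smooth hW hG k) a b j).1
  change cd j (cdb k fun y => ((a * f y + b * g y : ℝ) : ℂ)) x = _
  rw [show cd j (cdb k fun y => ((a * f y + b * g y : ℝ) : ℂ)) x =
    cd j (fun y => cdb k (fun y => ((a * f y + b * g y : ℝ) : ℂ)) y) x from rfl, h2, h3]
  rfl

theorem trla : S_TRLA := by
  intro n W hW Q f g a b hf hg x hx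
  have h := LM_lin hW hx hf hg a b
  refine ⟨h, ?_⟩
  unfold trL
  rw [h, Matrix.mul_add, Matrix.mul_smul, Matrix.mul_smul, Matrix.trace_add, Matrix.trace_smul,
    Matrix.trace_smul, Complex.add_re, smul_eq_mul, smul_eq_mul, Complex.re_ofReal_mul,
    Complex.re_ofReal_mul]

end Pool.Agent.Helper91.HS
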