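import Pool.Agent.Helper15.HS.GoalsC
import Pool.Agent.Helper35.SP.L2C

/-! # HS, packet LOCB: compact sets are controlled by the partition function -/

open Complex Metric Set Filter Topology MeasureTheory
open scoped ContDiff ComplexConjugate ComplexOrder Manifold Matrix

namespace Pool.Agent.Helper91.HS

open Pool.Agent.Helper95.Lin Pool.Agent.Helper16.Abund Pool.Agent.Helper92.Orb
  Pool.Agent.Helper10.SP Pool.Agent.Helper95.RK Pool.Agent.Helper57.HS Pool.Agent.Helper15.HS

universe u v

theorem locb (hARRB : S_ARRB.{u}) (hDETI : S_DETI.{u}) : S_LOCB.{u} := by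
  intro n T G _ R H hK κ hκ C hCT hC
  obtain ⟨B, hB, h⟩ := Pool.Agent.Helper35.SP.gen hARRB hDETI hK hκ hCT hC
  refine ⟨B + 1, by linarith, fun f hf hf0 hfi => ?_⟩
  have h1 := h f hf hf0 (fun U τ hτ x hx => by
    obtain ⟨γ, hγ⟩ := hτ.2.2
    exact hfi γ x (τ x) (hγ x hx))
  have e : ∫ x in T, κ x * (H x).det.re * f x = ∫ x in T, κ x * ((H x).det.re * f x) := by
    simp only [mul_assoc]
  have h0 : 0 ≤ ∫ x in T, κ x * ((H x).det.re * f x) := by
    refine setIntegral_nonneg hK.et.isOpen.measurableSet fun x hx => ?_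
    exact mul_nonneg (hκ.nonneg x) (mul_nonneg
      (Complex.pos_iff.1 (hK.posDef x hx).det_pos).1.le (hf0 x hx))
  rw [e]
  linarith

end Pool.Agent.Helper91.HS
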