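import Pool.Agent.Helper15.HS.GoalsC

/-! # HS, packet AVC: from averages to compact sets -/

open Complex Metric Set Filter Topology MeasureTheory
open scoped ContDiff ComplexConjugate ComplexOrder Manifold Matrix

namespace Pool.Agent.Helper91.HS

open Pool.Agent.Helper95.Lin Pool.Agent.Helper16.Abund Pool.Agent.Helper92.Orb
  Pool.Agent.Helper10.SP Pool.Agent.Helper95.RK Pool.Agent.Helper57.HS Pool.Agent.Helper15.HS

universe u v

theorem avc (hARRB : S_ARRB.{u}) (hDETI : S_DETI.{u}) (hVOLP : S_VOLP.{u})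
    (hLOCB : S_LOCB.{u}) : S_AVC.{u} := by
  intro n T G _ R H hK κ hκ hex k p hp0 hV ε Q hε hε0 hQ f hfc hf0 hfi hav C hCT hC
  have hT := hK.et.isOpen
  obtain ⟨B, hB, hloc⟩ := hLOCB T R H hK κ hκ C hCT hC
  obtain ⟨a1, a2, -, -, a5, -⟩ := hDETI T R H hK
  have hvol := (hVOLP T R H hK κ hκ hex).1
  have hdpos : ∀ j, ∀ x ∈ T, 0 < dens k (ε j) H (Q j) x := by
    intro j x hx
    obtain ⟨b1, -⟩ := hDETI T R (Q j) (hQ j).ket
    exact div_pos (b1 x hx).2.1 (mul_pos (pow_pos (hε j) k) (a1 x hx).2.1)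
  have hdc : ∀ j, ContinuousOn (dens k (ε j) H (Q j)) T := by
    intro j
    obtain ⟨-, b2, -⟩ := hDETI T R (Q j) (hQ j).ket
    exact b2.continuousOn.div (continuousOn_const.mul a2.continuousOn) fun x hx =>
      (mul_pos (pow_pos (hε j) k) (a1 x hx).2.1).ne'
  have hdi : ∀ j γ x y, R γ x y → dens k (ε j) H (Q j) y = dens k (ε j) H (Q j) x := by
    intro j γ x y h
    obtain ⟨-, -, -, -, b5, -⟩ := hDETI T R (Q j) (hQ j).ket
    obtain ⟨U, τ, σ, hxU, hUT, hLA, hτx, -⟩ := (hARRB T R hK.et).1 γ x y h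
    have hArr : Arr R U τ := ⟨hLA.1, hLA.2.1, γ, hLA.2.2⟩
    have h1 := (a5 U τ hArr x hxU).1
    have h2 := (b5 U τ hArr x hxU).1
    have hJ := ((hARRB T R hK.et).2.1 γ U τ hLA x hxU).1
    have hJp : ‖(fderiv ℂ τ x).det‖ ^ 2 ≠ 0 := by positivity
    unfold dens
    rw [h1, h2, hτx, ← mul_assoc]
    exact (mul_div_mul_right _ _ hJp).symm
  have hle : ∀ j, ∫ x in C, dens k (ε j) H (Q j) x * f j x ≤
      B * ((ε j ^ k)⁻¹ * itg T κ (Q j) (f j)) := by
    intro j
    have h1 := hloc (fun x => dens k (ε j) H (Q j) x * f j x) ((hdc j).mul (hfc j))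
      (fun x hx => mul_nonneg (hdpos j x hx).le (hf0 j x hx))
      (fun γ x y h => by
        simp only [hdi j γ x y h, hfi j γ x y h])
    refine h1.trans (le_of_eq ?_)
    congr 1
    unfold itg
    rw [← integral_const_mul]
    refine setIntegral_congr_fun hT.measurableSet fun x hx => ?_
    have h2 := (a1 x hx).2.1
    have h3 := pow_pos (hε j) k
    unfold dens
    field_simp
  have hone : ∀ j, itg T κ (Q j) (fun _ => 1) = ε j ^ k * p.eval (ε j) := by
    intro j
    have h1 := hvol (ε j) (Q j) (hε j) (hQ j) 0 le_rfl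
    rw [add_zero, hV] at h1
    rw [← h1]
    unfold itg
    simp
  have hpt : Tendsto (fun j => p.eval (ε j)) atTop (𝓝 (p.eval 0)) :=
    (p.continuous.tendsto 0).comp hε0
  have hev : ∀ᶠ j in atTop, 0 < p.eval (ε j) := hpt.eventually_const_lt hp0
  have hlim : Tendsto (fun j => B * (p.eval (ε j) * avE T κ (Q j) (f j))) atTop (𝓝 0) := by
    have := (hpt.mul hav).const_mul B
    simpa using this
  refine tendsto_of_tendsto_of_tendsto_of_le_of_le' tendsto_const_nhds hlim ?_ ?_
  · filter_upwards with j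
    refine setIntegral_nonneg hC.isClosed.measurableSet fun x hx => ?_
    exact mul_nonneg (hdpos j x (hCT hx)).le (hf0 j x (hCT hx))
  · filter_upwards [hev] with j hj
    refine (hle j).trans (le_of_eq ?_)
    unfold avE
    rw [hone j]
    have h3 := pow_pos (hε j) k
    field_simp

end Pool.Agent.Helper91.HS
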