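import Pool.Agent.Helper15.HS.GoalsC
import Pool.Agent.Helper19.HS.MAXF
import Pool.Agent.Helper45.HS.MatC
import Pool.Agent.Helper89.Lin.Phell

/-! # HS, packet UB: the uniform bound -/

open Complex Metric Set Filter Topology MeasureTheory
open scoped ContDiff ComplexConjugate ComplexOrder Manifold Matrix

namespace Pool.Agent.Helper91.HS

open Pool.Agent.Helper95.Lin Pool.Agent.Helper16.Abund Pool.Agent.Helper92.Orb
  Pool.Agent.Helper10.SP Pool.Agent.Helper95.RK Pool.Agent.Helper57.HS Pool.Agent.Helper15.HS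
  Pool.Agent.Helper89.Lin Pool.Agent.Helper45.HS

universe u v

theorem trace_re_sq {n : ℕ} (M : Matrix (Fin n) (Fin n) ℂ) (hM : M.IsHermitian) :
    (Matrix.trace M).re ^ 2 ≤ n * (Matrix.trace (M * M)).re := by
  rcases Nat.eq_zero_or_pos n with h0 | h0
  · subst h0
    simp [Matrix.trace]
  have hn : (0 : ℝ) < n := by exact_mod_cast h0
  set s : ℝ := (Matrix.trace M).re with hs
  set A : Matrix (Fin n) (Fin n) ℂ := ((n : ℝ) : ℂ) • M - ((s : ℝ) : ℂ) • 1 with hA
  have hAh : Aᴴ = A := by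
    rw [hA, Matrix.conjTranspose_sub, Matrix.conjTranspose_smul, Matrix.conjTranspose_smul, hM.eq,
      Matrix.conjTranspose_one]
    simp
  have h1 : 0 ≤ (Matrix.trace (Aᴴ * A)).re :=
    re_trace_nonneg (Matrix.posSemidef_conjTranspose_mul_self A)
  rw [hAh] at h1
  have h2 : Matrix.trace (A * A) = ((n : ℝ) : ℂ) ^ 2 * Matrix.trace (M * M) -
      2 * ((n : ℝ) : ℂ) * ((s : ℝ) : ℂ) * Matrix.trace M + ((n : ℝ) : ℂ) * ((s : ℝ) : ℂ) ^ 2 := by
    rw [hA]
    simp only [sub_mul, mul_sub, Matrix.smul_mul, Matrix.mul_smul, one_mul, mul_one,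
      Matrix.trace_sub, Matrix.trace_smul, Matrix.trace_one, smul_eq_mul, Fintype.card_fin]
    push_cast
    ring
  have h3 : (Matrix.trace (A * A)).re = (n : ℝ) ^ 2 * (Matrix.trace (M * M)).re -
      2 * n * s * s + n * s ^ 2 := by
    rw [h2, hs]
    simp [pow_two]
  rw [h3] at h1
  have h4 : 0 ≤ (n : ℝ) * (n * (Matrix.trace (M * M)).re - s ^ 2) := by linarith
  have h5 := nonneg_of_mul_nonneg_right h4 hn
  linarith

theorem trace_hk_sq {n : ℕ} {H K : Matrix (Fin n) (Fin n) ℂ} (hH : H.IsHermitian)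
    (hK : K.PosSemidef) :
    (Matrix.trace (H * K)).re ^ 2 ≤ n * (Matrix.trace (H * (K * H * K))).re := by
  obtain ⟨B, rfl⟩ := exists_root hK
  have h1 := trace_re_sq (B * H * Bᴴ) (by
    unfold Matrix.IsHermitian
    rw [Matrix.conjTranspose_mul, Matrix.conjTranspose_mul, Matrix.conjTranspose_conjTranspose,
      hH.eq, Matrix.mul_assoc])
  have e1 : Matrix.trace (B * H * Bᴴ) = Matrix.trace (H * (Bᴴ * B)) := by
    rw [Matrix.trace_mul_comm, ← Matrix.mul_assoc, ← Matrix.trace_mul_comm]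
  have e2 : Matrix.trace (B * H * Bᴴ * (B * H * Bᴴ)) =
      Matrix.trace (H * (Bᴴ * B * H * (Bᴴ * B))) := by
    have : B * H * Bᴴ * (B * H * Bᴴ) = B * (H * Bᴴ * B * H * Bᴴ) := by
      simp only [Matrix.mul_assoc]
    rw [this, Matrix.trace_mul_comm]
    simp only [Matrix.mul_assoc]
  rw [e1, e2] at h1
  exact h1

theorem ub (h1 : S_LMF) (h2 : S_CL) (h3 : S_IFN.{u}) : S_UB.{u} := by
  intro n T G _ R Q H η hQ hH hR hrho c hc hη
  have hT := hQ.et.isOpen
  have hQH : HerT T R Q := ⟨hQ.posDef, hQ.smooth, hQ.inv⟩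
  have sQ : SmM Q T := hQ.smooth
  have sH : SmM H T := hH.smooth
  have sm : ContDiffOn ℝ ∞ (fun x => (Matrix.trace (H x * (Q x)⁻¹)).re) T :=
    Complex.reCLM.contDiff.comp_contDiffOn
      (sH.mul (sQ.inv fun x hx => posDef_det (hQ.posDef x hx))).trace
  have hinv : InvF T R fun x => (Matrix.trace (H x * (Q x)⁻¹)).re := by
    refine ⟨sm, fun γ x y h => ?_⟩
    have := ((h3 T R hQ.et Q H hQH hH.inv).2 γ x y h).1
    simp only [this]
  obtain ⟨x₀, hx₀, hmax, hneg⟩ := Pool.Agent.Helper19.HS.maxf h1 T R hQ.et _ hinv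
  suffices hs : (Matrix.trace (H x₀ * (Q x₀)⁻¹)).re ≤ n / c from
    fun x hx => (hmax x hx).trans hs
  have hchf : CHF Q T := ⟨hQ.smooth, fun x hx => (hQ.posDef x hx).isHermitian, hQ.closed⟩
  obtain ⟨hA, hid⟩ := h2 T hT Q H η hchf hQ.posDef hrho hH.smooth hH.posDef x₀ hx₀
  have hK : ((Q x₀)⁻¹).PosSemidef := (hQ.posDef x₀ hx₀).inv.posSemidef
  have htr : (trL Q (fun x => (Matrix.trace (H x * (Q x)⁻¹)).re) x₀).re ≤ 0 := by
    have := re_trace_mul_nonneg hK hneg
    rw [Matrix.mul_neg, Matrix.trace_neg, Complex.neg_re] at this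
    unfold trL
    linarith
  have hKK : KKt H Q x₀ ≤ 0 := hR x₀ hx₀ _ hK
  set K := (Q x₀)⁻¹ with hKdef
  set t := (Matrix.trace (H x₀ * K)).re with ht
  have hHh : (H x₀).IsHermitian := (hH.posDef x₀ hx₀).isHermitian
  have hKHK : (K * H x₀ * K).PosSemidef := by
    have := (hH.posDef x₀ hx₀).posSemidef.mul_mul_conjTranspose_same K
    rwa [hK.isHermitian.eq] at this
  have hη1 := re_trace_mul_nonneg (hη x₀ hx₀) hKHK
  have hη2 : (Matrix.trace ((η x₀ - (c : ℂ) • H x₀) * (K * H x₀ * K))).re =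
      (Matrix.trace (η x₀ * K * H x₀ * K)).re - c * (Matrix.trace (H x₀ * (K * H x₀ * K))).re := by
    rw [Matrix.sub_mul, Matrix.trace_sub, Matrix.smul_mul, Matrix.trace_smul, Complex.sub_re,
      smul_eq_mul, Complex.re_ofReal_mul]
    simp only [Matrix.mul_assoc]
  rw [hη2] at hη1
  have hcs := trace_hk_sq hHh hK
  rw [← ht] at hcs
  have hkey : c * (Matrix.trace (H x₀ * (K * H x₀ * K))).re ≤ t := by
    linarith
  have hn0 : (0 : ℝ) ≤ n := Nat.cast_nonneg n
  rw [le_div_iff₀ hc]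
  rcases le_or_gt t 0 with h0 | h0
  · nlinarith
  · have h5 : c * t ^ 2 ≤ n * t := by
      calc c * t ^ 2 ≤ c * (n * (Matrix.trace (H x₀ * (K * H x₀ * K))).re) :=
            mul_le_mul_of_nonneg_left hcs hc.le
        _ = n * (c * (Matrix.trace (H x₀ * (K * H x₀ * K))).re) := by ring
        _ ≤ n * t := mul_le_mul_of_nonneg_left hkey hn0
    have h6 : t * (t * c) ≤ t * n := by linarith
    exact le_of_mul_le_mul_left h6 h0

end Pool.Agent.Helper91.HS
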